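import Mathlib
import Pool.Agent.W852.HV.Stms

/-!
# Cells are geodesically convex
-/

open MeasureTheory ProbabilityTheory Set Metric
open scoped UpperHalfPlane ENNReal

namespace Pool.Agent.W52.HV

open HypVoronoi

theorem lin_alg (A1 A2 A3 B1 B2 B3 Z1 Z2 Z3 c1 s1 c2 s2 : ℝ)
    (hA : A1 * A3 - A2 ^ 2 = 1) (hB : B1 * B3 - B2 ^ 2 = 1) (hZ : Z1 * Z3 - Z2 ^ 2 = 1)
    (hZ1 : 0 < Z1) (hZ3 : 0 < Z3)
    (h1 : c1 ^ 2 = s1 ^ 2 + 1) (h2 : c2 ^ 2 = s2 ^ 2 + 1)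
    (haz : (A1 * Z3 + A3 * Z1 - 2 * A2 * Z2) / 2 = c1)
    (hbz : (B1 * Z3 + B3 * Z1 - 2 * B2 * Z2) / 2 = c2)
    (hab : (A1 * B3 + A3 * B1 - 2 * A2 * B2) / 2 = c1 * c2 + s1 * s2) :
    (s1 * c2 + c1 * s2) * Z1 = s2 * A1 + s1 * B1 ∧ (s1 * c2 + c1 * s2) * Z2 = s2 * A2 + s1 * B2 ∧
      (s1 * c2 + c1 * s2) * Z3 = s2 * A3 + s1 * B3 := by
  set E1 := (s1 * c2 + c1 * s2) * Z1 - (s2 * A1 + s1 * B1) with hE1
  set E2 := (s1 * c2 + c1 * s2) * Z2 - (s2 * A2 + s1 * B2) with hE2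
  set E3 := (s1 * c2 + c1 * s2) * Z3 - (s2 * A3 + s1 * B3) with hE3
  have hQ : E1 * E3 - E2 ^ 2 = 0 := by
    have e1 : E1 * E3 - E2 ^ 2 = (s1 * c2 + c1 * s2) ^ 2 * (Z1 * Z3 - Z2 ^ 2) +
        s2 ^ 2 * (A1 * A3 - A2 ^ 2) + s1 ^ 2 * (B1 * B3 - B2 ^ 2)
        - 2 * (s1 * c2 + c1 * s2) * s2 * ((A1 * Z3 + A3 * Z1 - 2 * A2 * Z2) / 2)
        - 2 * (s1 * c2 + c1 * s2) * s1 * ((B1 * Z3 + B3 * Z1 - 2 * B2 * Z2) / 2)
        + 2 * s1 * s2 * ((A1 * B3 + A3 * B1 - 2 * A2 * B2) / 2) := by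
      rw [hE1, hE2, hE3]; ring
    rw [e1, hA, hB, hZ, haz, hbz, hab]
    have e2 : (s1 * c2 + c1 * s2) ^ 2 * 1 + s2 ^ 2 * 1 + s1 ^ 2 * 1 - 2 * (s1 * c2 + c1 * s2) * s2 * c1 -
        2 * (s1 * c2 + c1 * s2) * s1 * c2 + 2 * s1 * s2 * (c1 * c2 + s1 * s2) =
        s1 ^ 2 + s2 ^ 2 + 2 * s1 ^ 2 * s2 ^ 2 - s1 ^ 2 * c2 ^ 2 - c1 ^ 2 * s2 ^ 2 := by ring
    rw [e2, h1, h2]; ring
  have hL : E1 * Z3 + E3 * Z1 - 2 * E2 * Z2 = 0 := by
    have e1 : E1 * Z3 + E3 * Z1 - 2 * E2 * Z2 = 2 * (s1 * c2 + c1 * s2) * (Z1 * Z3 - Z2 ^ 2)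
        - 2 * s2 * ((A1 * Z3 + A3 * Z1 - 2 * A2 * Z2) / 2)
        - 2 * s1 * ((B1 * Z3 + B3 * Z1 - 2 * B2 * Z2) / 2) := by
      rw [hE1, hE2, hE3]; ring
    rw [e1, hZ, haz, hbz]; ring
  have hE20 : E2 = 0 := by
    have e1 : (E1 * Z3 - E3 * Z1) ^ 2 + 4 * E2 ^ 2 = 0 := by
      have e2 : (E1 * Z3 - E3 * Z1) ^ 2 = (E1 * Z3 + E3 * Z1) ^ 2 - 4 * (E1 * E3) * (Z1 * Z3) := by ring
      have e3 : E1 * Z3 + E3 * Z1 = 2 * E2 * Z2 := by linarith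
      have e4 : E1 * E3 = E2 ^ 2 := by linarith
      have e5 : Z1 * Z3 = 1 + Z2 ^ 2 := by linarith
      rw [e2, e3, e4, e5]; ring
    have e2 : 0 ≤ (E1 * Z3 - E3 * Z1) ^ 2 := sq_nonneg _
    have e3 : E2 ^ 2 = 0 := le_antisymm (by linarith) (sq_nonneg _)
    exact pow_eq_zero_iff (by norm_num) |>.1 e3
  rw [hE20] at hQ hL
  have hE13 : E1 = 0 ∧ E3 = 0 := by
    have e1 : E1 * E3 = 0 := by linarith
    rcases mul_eq_zero.1 e1 with h | h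
    · rw [h] at hL
      have e2 : E3 * Z1 = 0 := by linarith
      exact ⟨h, (mul_eq_zero.1 e2).resolve_right hZ1.ne'⟩
    · rw [h] at hL
      have e2 : E1 * Z3 = 0 := by linarith
      exact ⟨(mul_eq_zero.1 e2).resolve_right hZ3.ne', h⟩
  exact ⟨by linarith [hE13.1], by linarith, by linarith [hE13.2]⟩

theorem cosh_B (z w : ℍ) : Real.cosh (dist z w) =
    ((1 / z.im) * ((w.re ^ 2 + w.im ^ 2) / w.im) + ((z.re ^ 2 + z.im ^ 2) / z.im) * (1 / w.im)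
      - 2 * (z.re / z.im) * (w.re / w.im)) / 2 := by
  rw [UpperHalfPlane.cosh_dist']
  have h1 := z.im_pos
  have h2 := w.im_pos
  field_simp
  ring

theorem quad_V (z : ℍ) : (1 / z.im) * ((z.re ^ 2 + z.im ^ 2) / z.im) - (z.re / z.im) ^ 2 = 1 := by
  have h1 := z.im_pos
  field_simp
  ring

/-- the distance to a third point along a geodesic -/
theorem cosh_seg (a b z p : ℍ) (h : dist a z + dist z b = dist a b) :
    Real.sinh (dist a b) * Real.cosh (dist z p) =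
      Real.sinh (dist z b) * Real.cosh (dist a p) + Real.sinh (dist a z) * Real.cosh (dist b p) := by
  obtain ⟨e1, e2, e3⟩ := lin_alg (1 / a.im) (a.re / a.im) ((a.re ^ 2 + a.im ^ 2) / a.im)
    (1 / b.im) (b.re / b.im) ((b.re ^ 2 + b.im ^ 2) / b.im)
    (1 / z.im) (z.re / z.im) ((z.re ^ 2 + z.im ^ 2) / z.im)
    (Real.cosh (dist a z)) (Real.sinh (dist a z)) (Real.cosh (dist z b)) (Real.sinh (dist z b))
    (quad_V a) (quad_V b) (quad_V z) (by have := z.im_pos; positivity)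
    (by have := z.im_pos; positivity) (Real.cosh_sq _) (Real.cosh_sq _)
    (cosh_B a z).symm (by rw [dist_comm z b]; exact (cosh_B b z).symm)
    (by rw [← Real.cosh_add, h]; exact (cosh_B a b).symm)
  rw [← Real.sinh_add, h] at e1 e2 e3
  rw [cosh_B z p, cosh_B a p, cosh_B b p]
  linear_combination ((p.re ^ 2 + p.im ^ 2) / p.im) / 2 * e1 - (p.re / p.im) * e2 + (1 / p.im) / 2 * e3

theorem conv : TaskConv := by
  intro P p a b ha hb z hz q hq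
  have hz' : dist a z + dist z b = dist a b := hz
  have h1 := ha q hq
  have h2 := hb q hq
  have hc : Real.sinh (dist a b) * Real.cosh (dist z p) ≤ Real.sinh (dist a b) * Real.cosh (dist z q) := by
    rw [cosh_seg a b z p hz', cosh_seg a b z q hz']
    have h3 : Real.cosh (dist a p) ≤ Real.cosh (dist a q) := by
      rw [Real.cosh_le_cosh, abs_of_nonneg dist_nonneg, abs_of_nonneg dist_nonneg]
      exact h1
    have h4 : Real.cosh (dist b p) ≤ Real.cosh (dist b q) := by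
      rw [Real.cosh_le_cosh, abs_of_nonneg dist_nonneg, abs_of_nonneg dist_nonneg]
      exact h2
    have h5 : 0 ≤ Real.sinh (dist z b) := Real.sinh_nonneg_iff.2 dist_nonneg
    have h6 : 0 ≤ Real.sinh (dist a z) := Real.sinh_nonneg_iff.2 dist_nonneg
    exact add_le_add (mul_le_mul_of_nonneg_left h3 h5) (mul_le_mul_of_nonneg_left h4 h6)
  rcases (dist_nonneg : 0 ≤ dist a b).eq_or_lt with h0 | h0
  · have h3 : dist a z = 0 := by
      have := dist_nonneg (x := a) (y := z)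
      have := dist_nonneg (x := z) (y := b)
      linarith
    rw [← dist_eq_zero.1 h3]
    exact h1
  · have h3 : 0 < Real.sinh (dist a b) := Real.sinh_pos_iff.2 h0
    have h4 := le_of_mul_le_mul_left hc h3
    rw [Real.cosh_le_cosh, abs_of_nonneg dist_nonneg, abs_of_nonneg dist_nonneg] at h4
    exact h4

end Pool.Agent.W52.HV
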